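import Pool.Agent.Helper20.Kraus.Final

/-!
# The inequality of Kraus for the Schwarzian derivative: all points of the disc
-/

set_option autoImplicit false

open Complex Metric Set Filter Topology
open scoped Real ComplexConjugate

namespace Pool.Agent.Helper20.Kraus

open Pool.Agent.Helper39.Area
open Pool.Agent.Helper52.EK

variable {β : ℂ → ℂ}

/-- the first coefficient: `|β'(0)| ≤ 1` -/
theorem deriv_beta_zero (h : Ext β) : ‖deriv β 0‖ ≤ 1 := by
  have hk : DifferentiableOn ℂ (fun u : ℂ => 1 + u * β u) (ball 0 1) := by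
    have h2 : DifferentiableOn ℂ (fun u : ℂ => u) (ball 0 1) := by fun_prop
    exact (differentiableOn_const _).add (h2.mul h.diff)
  have hinj : ∀ u ∈ ball (0:ℂ) 1, ∀ v ∈ ball (0:ℂ) 1, u ≠ 0 → v ≠ 0 →
      (1 + u * β u) / u = (1 + v * β v) / v → u = v := by
    intro u hu v hv hu0 hv0 he
    have e : ∀ w : ℂ, w ≠ 0 → (1 + w * β w) / w = phi β w := by
      intro w hw
      unfold phi
      field_simp
    rw [e u hu0, e v hv0] at he
    exact h.inj u v hu hv hu0 hv0 he
  have h1 := area_k hk (by simp) hinj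
  have h01 : (0:ℂ) ∈ ball (0:ℂ) 1 := mem_ball_self one_pos
  have hb : ∀ u ∈ ball (0:ℂ) 1, HasDerivAt β (deriv β u) u := fun u hu =>
    (h.diff.differentiableAt (isOpen_ball.mem_nhds hu)).hasDerivAt
  have hb1 : HasDerivAt (deriv β) (deriv (deriv β) 0) 0 :=
    ((h.diff.deriv isOpen_ball).differentiableAt (isOpen_ball.mem_nhds h01)).hasDerivAt
  have hd1 : ∀ u ∈ ball (0:ℂ) 1, deriv (fun u : ℂ => 1 + u * β u) u = β u + u * deriv β u := by
    intro u hu
    have := (((hasDerivAt_id' u).fun_mul (hb u hu)).const_add 1).deriv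
    rw [this]
    ring
  have hd2 : deriv (deriv (fun u : ℂ => 1 + u * β u)) 0 = 2 * deriv β 0 := by
    have h3 : deriv (fun u : ℂ => 1 + u * β u) =ᶠ[𝓝 0] fun u => β u + u * deriv β u := by
      filter_upwards [isOpen_ball.mem_nhds h01] with u hu
      exact hd1 u hu
    rw [h3.deriv_eq]
    have := ((hb 0 h01).fun_add ((hasDerivAt_id' (0:ℂ)).fun_mul hb1)).deriv
    rw [this]
    ring
  rw [hd2, norm_mul] at h1
  have h5 : ‖(2:ℂ)‖ = 2 := by simp
  rw [h5] at h1
  linarith

theorem SN_zero (h : Ext β) : SN β 0 = -2 * deriv β 0 := by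
  have h01 : (0:ℂ) ∈ ball (0:ℂ) 1 := mem_ball_self one_pos
  have hb1 : ∀ u ∈ ball (0:ℂ) 1, HasDerivAt (deriv β) (deriv (deriv β) u) u := fun u hu =>
    ((h.diff.deriv isOpen_ball).differentiableAt (isOpen_ball.mem_nhds hu)).hasDerivAt
  have hb2 : HasDerivAt (deriv (deriv β)) (deriv (deriv (deriv β)) 0) 0 :=
    (((h.diff.deriv isOpen_ball).deriv isOpen_ball).differentiableAt
      (isOpen_ball.mem_nhds h01)).hasDerivAt
  have hN1 : ∀ u ∈ ball (0:ℂ) 1, HasDerivAt (N β) (-(2 * u * deriv β u +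
      u ^ 2 * deriv (deriv β) u)) u := by
    intro u hu
    have h3 : HasDerivAt (fun u : ℂ => u ^ 2) (2 * u) u := by
      have := (hasDerivAt_id' u).fun_pow 2
      simpa using this
    have := ((h3.fun_mul (hb1 u hu)).const_sub 1)
    exact this
  have hd1 : deriv (N β) =ᶠ[𝓝 0] fun u => -(2 * u * deriv β u + u ^ 2 * deriv (deriv β) u) := by
    filter_upwards [isOpen_ball.mem_nhds h01] with u hu
    exact (hN1 u hu).deriv
  have hd0 : deriv (N β) 0 = 0 := by
    rw [(hN1 0 h01).deriv]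
    ring
  have hd2 : deriv (deriv (N β)) 0 = -2 * deriv β 0 := by
    rw [hd1.deriv_eq]
    have h3 : HasDerivAt (fun u : ℂ => u ^ 2) (2 * 0) 0 := by
      have := (hasDerivAt_id' (0:ℂ)).fun_pow 2
      simpa using this
    have h4 : HasDerivAt (fun u : ℂ => 2 * u) (2 * 1) 0 := (hasDerivAt_id' (0:ℂ)).const_mul 2
    have := ((h4.fun_mul (hb1 0 h01)).fun_add (h3.fun_mul hb2)).fun_neg.deriv
    rw [this]
    ring
  have hN0 : N β 0 = 1 := by
    unfold N
    simp
  rw [SN, hd0, hd2, hN0]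
  simp

/-- **Kraus**, all points of the disc (at the origin the term `(2/z)(N'/N)` is read as `0`) -/
theorem kraus_all (h : Ext β) {z : ℂ} (hz : ‖z‖ < 1) :
    (1 - ‖z‖ ^ 2) ^ 2 * ‖SN β z‖ ≤ 6 := by
  by_cases h0 : z = 0
  · subst h0
    rw [SN_zero h, norm_mul, norm_neg, norm_zero]
    have h1 := deriv_beta_zero h
    have h5 : ‖(2:ℂ)‖ = 2 := by simp
    rw [h5]
    nlinarith [norm_nonneg (deriv β 0)]
  · exact kraus h hz h0

/-- **Kraus** for `ExtR`, with the usual formula for the Schwarzian derivative -/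
theorem kraus_ExtR {R : ℝ} (h : ExtR β R) {z : ℂ} (hz : ‖z‖ < 1) :
    (1 - ‖z‖ ^ 2) ^ 2 * ‖deriv (fun w => deriv (N β) w / N β w) z
      - 1 / 2 * (deriv (N β) z / N β z) ^ 2 + 2 / z * (deriv (N β) z / N β z)‖ ≤ 6 := by
  rw [← SN_eq h.toExt hz]
  exact kraus_all h.toExt hz

end Pool.Agent.Helper20.Kraus
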