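import Pool.Agent.Helper39.Area.Wind
import Pool.Agent.Helper22.Marshall.ClassIneq
import Pool.Agent.Helper24.Br.Inj

/-!
# The area theorem for the second coefficient
-/

set_option autoImplicit false

open Complex Metric Set Filter Topology
open scoped Real ComplexConjugate

namespace Pool.Agent.Helper20.Kraus

open Pool.Agent.Helper39.Area
open Pool.Agent.Helper22.Marshall (coeff)

variable {k : ℂ → ℂ}

theorem phi_dslope (hk0 : k 0 = 1) {u : ℂ} (hu : u ≠ 0) :
    phi (dslope k 0) u = k u / u := by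
  unfold phi
  rw [dslope_of_ne _ hu, slope_def_field, hk0, sub_zero]
  field_simp
  ring

theorem ext_of_k (hk : DifferentiableOn ℂ k (ball 0 1)) (hk0 : k 0 = 1)
    (hinj : ∀ u ∈ ball (0:ℂ) 1, ∀ v ∈ ball (0:ℂ) 1, u ≠ 0 → v ≠ 0 → k u / u = k v / v → u = v) :
    Ext (dslope k 0) := by
  have hb0 : ball (0:ℂ) 1 ∈ 𝓝 (0:ℂ) := ball_mem_nhds 0 one_pos
  have hd : DifferentiableOn ℂ (dslope k 0) (ball 0 1) :=
    (Complex.differentiableOn_dslope hb0).mpr hk
  refine ⟨hd, ?_, ?_⟩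
  · intro ζ ω hζ hω h1 h2 h
    have e1 := phi_dslope hk0 h1
    have e2 := phi_dslope hk0 h2
    unfold phi at e1 e2
    rw [e1, e2] at h
    exact hinj ζ hζ ω hω h1 h2 h
  · intro ζ hζ
    by_cases h0 : ζ = 0
    · subst h0
      simp
    · have hopen : IsOpen (ball (0:ℂ) 1 ∩ {0}ᶜ) := isOpen_ball.inter isOpen_compl_singleton
      have hdp : DifferentiableOn ℂ (phi (dslope k 0)) (ball (0:ℂ) 1 ∩ {0}ᶜ) := by
        intro w hw
        exact (hasDerivAt_phi hd hw.1 hw.2).differentiableAt.differentiableWithinAt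
      have hip : InjOn (phi (dslope k 0)) (ball (0:ℂ) 1 ∩ {0}ᶜ) := by
        intro u hu v hv huv
        rw [phi_dslope hk0 hu.2, phi_dslope hk0 hv.2] at huv
        exact hinj u hu.1 v hv.1 hu.2 hv.2 huv
      have hne := Pool.Agent.Helper24.Br.deriv_ne_of_inj hopen hdp hip ⟨hζ, h0⟩
      rw [(hasDerivAt_phi hd hζ h0).deriv] at hne
      intro hc
      apply hne
      unfold dphi
      have : (ζ ^ 2)⁻¹ * (1 - ζ ^ 2 * deriv (dslope k 0) ζ) = 0 := by rw [hc, mul_zero]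
      have hz2 : ζ ^ 2 ≠ 0 := pow_ne_zero _ h0
      rw [mul_sub, mul_one, inv_mul_cancel_left₀ hz2] at this
      linear_combination -this

/-- the area theorem -/
theorem area_k (hk : DifferentiableOn ℂ k (ball 0 1)) (hk0 : k 0 = 1)
    (hinj : ∀ u ∈ ball (0:ℂ) 1, ∀ v ∈ ball (0:ℂ) 1, u ≠ 0 → v ≠ 0 → k u / u = k v / v → u = v) :
    ‖deriv (deriv k) 0‖ ≤ 2 := by
  have hE := ext_of_k hk hk0 hinj
  have hv : ∀ ζ : ℂ, ζ ≠ 0 → ‖ζ‖ < 1 → HasSum (fun m => coeff k m * ζ ^ m)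
      (ζ ^ 1 * (Polynomial.X : Polynomial ℂ).eval (phi (dslope k 0) ζ)) := by
    intro ζ h0 hζ
    have e1 : ζ ^ 1 * (Polynomial.X : Polynomial ℂ).eval (phi (dslope k 0) ζ) = k ζ := by
      rw [Polynomial.eval_X, phi_dslope hk0 h0]
      field_simp
    rw [e1]
    exact Pool.Agent.Helper22.Marshall.hasSum_coeff hk hζ
  have hA := Pool.Agent.Helper22.Marshall.gLe_one hE 1 Polynomial.X _
    (by rw [Polynomial.natDegree_X]) hv 3
  simp only [Finset.sum_range_succ, Finset.sum_range_zero, zero_add] at hA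
  norm_num at hA
  rw [Pool.Agent.Helper22.Marshall.coeff_zero, hk0] at hA
  have h2 : coeff k 2 = deriv (deriv k) 0 / 2 := by
    unfold Pool.Agent.Helper22.Marshall.coeff
    rw [iteratedDeriv_succ, iteratedDeriv_one]
    simp [Nat.factorial]
    ring
  rw [h2, norm_div] at hA
  have h3 : ‖(2:ℂ)‖ = 2 := by simp
  rw [h3, norm_one] at hA
  have h4 := norm_nonneg (deriv (deriv k) 0)
  nlinarith

end Pool.Agent.Helper20.Kraus
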