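import Pool.Agent.Helper20.Kraus.Strip
import Pool.Agent.Helper9.EK.Rot

/-!
# The second invariant: continuity and rotations
-/

set_option autoImplicit false

open Complex Metric Set Filter Topology
open scoped Real ComplexConjugate

namespace Pool.Agent.Helper20.Kraus

open Pool.Agent.Helper39.Area
open Pool.Agent.Helper52.EK
open Pool.Agent.Helper9.EK

variable {β : ℂ → ℂ}

theorem SN_cont (h : Ext β) : ContinuousOn (SN β) {z | 0 < ‖z‖ ∧ ‖z‖ < 1} := by
  have hsub : {z : ℂ | 0 < ‖z‖ ∧ ‖z‖ < 1} ⊆ ball (0:ℂ) 1 := fun z hz =>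
    mem_ball_zero_iff.mpr hz.2
  have hN := N_diff h
  have c0 : ContinuousOn (N β) {z | 0 < ‖z‖ ∧ ‖z‖ < 1} := hN.continuousOn.mono hsub
  have c1 : ContinuousOn (deriv (N β)) {z | 0 < ‖z‖ ∧ ‖z‖ < 1} :=
    (hN.deriv isOpen_ball).continuousOn.mono hsub
  have c2 : ContinuousOn (deriv (deriv (N β))) {z | 0 < ‖z‖ ∧ ‖z‖ < 1} :=
    ((hN.deriv isOpen_ball).deriv isOpen_ball).continuousOn.mono hsub
  have hne : ∀ z ∈ {z : ℂ | 0 < ‖z‖ ∧ ‖z‖ < 1}, N β z ≠ 0 := fun z hz => N_ne h hz.2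
  have hz0 : ∀ z ∈ {z : ℂ | 0 < ‖z‖ ∧ ‖z‖ < 1}, z ≠ 0 := fun z hz => norm_pos_iff.mp hz.1
  unfold SN
  exact ((c2.div c0 hne).sub (continuousOn_const.mul ((c1.div c0 hne).pow 2))).add
    ((continuousOn_const.div continuousOn_id hz0).mul (c1.div c0 hne))

theorem sigR_cont (h : Ext β) : ContinuousOn (sigR β) {z | 0 < ‖z‖ ∧ ‖z‖ < 1} := by
  have c1 := SN_cont h
  have c2 : ContinuousOn (fun z : ℂ => (z / (‖z‖ : ℂ)) ^ 2) {z | 0 < ‖z‖ ∧ ‖z‖ < 1} := by
    refine (continuousOn_id.div ?_ ?_).pow 2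
    · exact (Complex.continuous_ofReal.comp continuous_norm).continuousOn
    · intro z hz
      exact Complex.ofReal_ne_zero.2 hz.1.ne'
  have c3 : ContinuousOn (fun z : ℂ => (1 - (‖z‖ : ℂ) ^ 2) ^ 2) {z | 0 < ‖z‖ ∧ ‖z‖ < 1} := by
    have : Continuous fun z : ℂ => (1 - (‖z‖ : ℂ) ^ 2) ^ 2 := by fun_prop
    exact this.continuousOn
  unfold sigR
  exact (((c2.mul c3).mul c1).div_const 4).neg

theorem SN_rot (α : ℝ) (z : ℂ) :
    SN (rotβ β α) z = Complex.exp (α * I) ^ 2 * SN β (Complex.exp (α * I) * z) := by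
  have h1 : N (rotβ β α) = fun z => N β (Complex.exp (α * I) * z) := funext (rot_N' α)
  have h2 : deriv (N (rotβ β α)) = fun z => Complex.exp (α * I) *
      deriv (N β) (Complex.exp (α * I) * z) := by
    funext z
    rw [h1, deriv_comp_mul_left, smul_eq_mul]
  have h3 : deriv (deriv (N (rotβ β α))) z = Complex.exp (α * I) *
      (Complex.exp (α * I) * deriv (deriv (N β)) (Complex.exp (α * I) * z)) := by
    rw [h2, deriv_const_mul_field, deriv_comp_mul_left, smul_eq_mul]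
  have hc : Complex.exp (α * I) ≠ 0 := Complex.exp_ne_zero _
  unfold SN
  rw [h3, h2, h1]
  have e : 2 / (Complex.exp (α * I) * z) * Complex.exp (α * I) = 2 / z := by
    rw [mul_comm (Complex.exp (α * I)) z, ← div_div, div_mul_cancel₀ _ hc]
  simp only []
  rw [← e]
  ring

theorem sigR_rot (α : ℝ) (z : ℂ) :
    sigR (rotβ β α) z = sigR β (Complex.exp (α * I) * z) := by
  unfold sigR
  rw [SN_rot, norm_exp_mul]
  ring

end Pool.Agent.Helper20.Kraus
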