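import Pool.Agent.Helper20.Kraus.Area
import Pool.Agent.Helper52.EK.Defs

/-!
# The inequality of Kraus for the Schwarzian derivative
-/

set_option autoImplicit false

open Complex Metric Set Filter Topology
open scoped Real ComplexConjugate

namespace Pool.Agent.Helper20.Kraus

open Pool.Agent.Helper39.Area
open Pool.Agent.Helper52.EK

variable {β : ℂ → ℂ}

/-- the automorphism of the disc -/
noncomputable def T (z u : ℂ) : ℂ := (u + z) / (1 + conj z * u)

theorem den_ne {z u : ℂ} (hz : ‖z‖ < 1) (hu : ‖u‖ < 1) : 1 + conj z * u ≠ 0 := by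
  intro h
  have h1 : conj z * u = -1 := by linear_combination h
  have h2 := congrArg (fun w : ℂ => ‖w‖) h1
  simp only [norm_mul, RCLike.norm_conj, norm_neg, norm_one] at h2
  nlinarith [norm_nonneg z, norm_nonneg u]

theorem T_mem {z u : ℂ} (hz : ‖z‖ < 1) (hu : ‖u‖ < 1) : T z u ∈ ball (0:ℂ) 1 := by
  have hd := den_ne hz hu
  rw [mem_ball_zero_iff, T, norm_div, div_lt_one (norm_pos_iff.mpr hd)]
  refine lt_of_pow_lt_pow_left₀ 2 (norm_nonneg _) ?_
  have h1 : ‖z‖ ^ 2 < 1 := by nlinarith [norm_nonneg z]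
  have h2 : ‖u‖ ^ 2 < 1 := by nlinarith [norm_nonneg u]
  rw [← Complex.normSq_eq_norm_sq, Complex.normSq_apply] at h1 h2
  rw [← Complex.normSq_eq_norm_sq, ← Complex.normSq_eq_norm_sq, Complex.normSq_apply,
    Complex.normSq_apply]
  simp only [add_re, add_im, mul_re, mul_im, one_re, one_im, conj_re, conj_im]
  nlinarith [mul_pos (sub_pos.mpr h1) (sub_pos.mpr h2)]

theorem T_hasDerivAt {z u : ℂ} (hz : ‖z‖ < 1) (hu : ‖u‖ < 1) :
    HasDerivAt (T z) ((1 - (‖z‖ : ℂ) ^ 2) / (1 + conj z * u) ^ 2) u := by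
  have hd := den_ne hz hu
  have h1 : HasDerivAt (fun u : ℂ => u + z) 1 u := (hasDerivAt_id u).add_const z
  have h2 : HasDerivAt (fun u : ℂ => 1 + conj z * u) (conj z) u := by
    simpa using ((hasDerivAt_id u).const_mul (conj z)).const_add 1
  have h3 := h1.div h2 hd
  have e : (1 * (1 + conj z * u) - (u + z) * conj z) / (1 + conj z * u) ^ 2 =
      (1 - (‖z‖ : ℂ) ^ 2) / (1 + conj z * u) ^ 2 := by
    congr 1
    rw [← Complex.mul_conj']
    ring
  rw [e] at h3
  exact h3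

theorem T_zero (z : ℂ) : T z 0 = z := by simp [T]

theorem T_inj {z u v : ℂ} (hz : ‖z‖ < 1) (hu : ‖u‖ < 1) (hv : ‖v‖ < 1) (h : T z u = T z v) :
    u = v := by
  have h1 := den_ne hz hu
  have h2 := den_ne hz hv
  unfold T at h
  rw [div_eq_div_iff h1 h2] at h
  have h3 : (u - v) * (1 - z * conj z) = 0 := by linear_combination h
  rcases mul_eq_zero.1 h3 with h4 | h4
  · exact sub_eq_zero.1 h4
  · exfalso
    rw [Complex.mul_conj'] at h4
    have h5 : ((1 - ‖z‖ ^ 2 : ℝ) : ℂ) = 0 := by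
      push_cast
      exact h4
    have h6 : 1 - ‖z‖ ^ 2 = 0 := by exact_mod_cast h5
    nlinarith [norm_nonneg z]

/-- the function with `k u / u = c / (φ (T u) - φ z)` -/
noncomputable def kk (β : ℂ → ℂ) (z u : ℂ) : ℂ :=
  (u + z) / z * (N β z / qq β z (T z u))

theorem qq_self (z : ℂ) : qq β z z = N β z := by
  unfold qq N
  rw [dslope_same]
  ring

theorem kk_zero (h : Ext β) {z : ℂ} (hz : ‖z‖ < 1) (hz0 : z ≠ 0) : kk β z 0 = 1 := by
  have h1 : qq β z z ≠ 0 := qq_ne h (mem_ball_zero_iff.mpr hz) (mem_ball_zero_iff.mpr hz)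
  rw [qq_self] at h1
  rw [kk, T_zero, qq_self, zero_add, div_self hz0, div_self h1, mul_one]

theorem kk_diff (h : Ext β) {z : ℂ} (hz : ‖z‖ < 1) : DifferentiableOn ℂ (kk β z) (ball 0 1) := by
  have hzb : z ∈ ball (0:ℂ) 1 := mem_ball_zero_iff.mpr hz
  have hT : DifferentiableOn ℂ (T z) (ball 0 1) := fun u hu =>
    (T_hasDerivAt hz (mem_ball_zero_iff.mp hu)).differentiableAt.differentiableWithinAt
  have hm : MapsTo (T z) (ball 0 1) (ball 0 1) := fun u hu => T_mem hz (mem_ball_zero_iff.mp hu)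
  have h1 : DifferentiableOn ℂ (fun u => qq β z (T z u)) (ball 0 1) := (qq_diff h.diff hzb).comp hT hm
  have h2 : DifferentiableOn ℂ (fun u : ℂ => (u + z) / z) (ball 0 1) := by
    apply DifferentiableOn.div_const
    fun_prop
  exact h2.mul ((differentiableOn_const _).div h1 fun u hu => qq_ne h hzb (hm hu))

theorem z_sub_T {z u : ℂ} (hz : ‖z‖ < 1) (hu : ‖u‖ < 1) :
    z - T z u = -(u * (1 - (‖z‖ : ℂ) ^ 2)) / (1 + conj z * u) := by
  have hd := den_ne hz hu
  rw [T, eq_div_iff hd, sub_mul, div_mul_cancel₀ _ hd, ← Complex.mul_conj']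
  ring

theorem one_sub_ne {z : ℂ} (hz : ‖z‖ < 1) : (1 - (‖z‖ : ℂ) ^ 2) ≠ 0 := by
  intro h4
  have h5 : ((1 - ‖z‖ ^ 2 : ℝ) : ℂ) = 0 := by
    push_cast
    exact h4
  have h6 : 1 - ‖z‖ ^ 2 = 0 := by exact_mod_cast h5
  nlinarith [norm_nonneg z]

/-- the relation between `kk` and `φ` -/
theorem kk_phi (h : Ext β) {z u : ℂ} (hz : ‖z‖ < 1) (hz0 : z ≠ 0) (hu : ‖u‖ < 1)
    (hT : T z u ≠ 0) :
    kk β z u * (phi β (T z u) - phi β z) = -(N β z * (1 - (‖z‖ : ℂ) ^ 2) / z ^ 2) * u := by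
  have hzb : z ∈ ball (0:ℂ) 1 := mem_ball_zero_iff.mpr hz
  have hd := den_ne hz hu
  have hq : qq β z (T z u) ≠ 0 := qq_ne h hzb (T_mem hz hu)
  have hs := z_sub_T hz hu
  rw [phi_sub z (T z u) hz0 hT]
  have e1 : (T z u)⁻¹ - z⁻¹ = (z - T z u) / (T z u * z) := by
    field_simp
  have e2 : u + z = T z u * (1 + conj z * u) := by
    rw [T, div_mul_cancel₀ _ hd]
  rw [kk, e1, hs, e2]
  field_simp

theorem kk_inj (h : Ext β) {z : ℂ} (hz : ‖z‖ < 1) (hz0 : z ≠ 0) :
    ∀ u ∈ ball (0:ℂ) 1, ∀ v ∈ ball (0:ℂ) 1, u ≠ 0 → v ≠ 0 → kk β z u / u = kk β z v / v → u = v := by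
  have hzb : z ∈ ball (0:ℂ) 1 := mem_ball_zero_iff.mpr hz
  have hN : N β z ≠ 0 := by
    rw [← qq_self]
    exact qq_ne h hzb hzb
  have hkz : ∀ u ∈ ball (0:ℂ) 1, kk β z u = 0 → u = -z := by
    intro u hu h0
    have hq : qq β z (T z u) ≠ 0 := qq_ne h hzb (T_mem hz (mem_ball_zero_iff.mp hu))
    rw [kk] at h0
    rcases mul_eq_zero.1 h0 with h1 | h1
    · rcases div_eq_zero_iff.1 h1 with h2 | h2
      · linear_combination h2
      · exact absurd h2 hz0
    · exact absurd h1 (div_ne_zero hN hq)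
  have hTz : ∀ u ∈ ball (0:ℂ) 1, T z u = 0 → u = -z := by
    intro u hu h0
    rw [T] at h0
    rcases div_eq_zero_iff.1 h0 with h2 | h2
    · linear_combination h2
    · exact absurd h2 (den_ne hz (mem_ball_zero_iff.mp hu))
  have hk0 : kk β z (-z) = 0 := by
    rw [kk, neg_add_cancel, zero_div, zero_mul]
  intro u hu v hv hu0 hv0 huv
  by_cases h1 : u = -z
  · rw [h1, hk0, zero_div] at huv
    have h2 : kk β z v = 0 := by
      rcases div_eq_zero_iff.1 huv.symm with h3 | h3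
      · exact h3
      · exact absurd h3 hv0
    rw [h1, hkz v hv h2]
  by_cases h2 : v = -z
  · rw [h2, hk0, zero_div] at huv
    have h3 : kk β z u = 0 := by
      rcases div_eq_zero_iff.1 huv with h3 | h3
      · exact h3
      · exact absurd h3 hu0
    exact absurd (hkz u hu h3) h1
  have hun := mem_ball_zero_iff.mp hu
  have hvn := mem_ball_zero_iff.mp hv
  have hTu : T z u ≠ 0 := fun h0 => h1 (hTz u hu h0)
  have hTv : T z v ≠ 0 := fun h0 => h2 (hTz v hv h0)
  have e1 := kk_phi h hz hz0 hun hTu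
  have e2 := kk_phi h hz hz0 hvn hTv
  set c : ℂ := -(N β z * (1 - (‖z‖ : ℂ) ^ 2) / z ^ 2) with hc
  have hc0 : c ≠ 0 :=
    neg_ne_zero.mpr (div_ne_zero (mul_ne_zero hN (one_sub_ne hz)) (pow_ne_zero _ hz0))
  have hku : kk β z u ≠ 0 := fun h0 => h1 (hkz u hu h0)
  have hkv : kk β z v ≠ 0 := fun h0 => h2 (hkz v hv h0)
  have e3 : phi β (T z u) - phi β z = c * (u / kk β z u) := by
    field_simp
    linear_combination e1
  have e4 : phi β (T z v) - phi β z = c * (v / kk β z v) := by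
    field_simp
    linear_combination e2
  have e5 : u / kk β z u = v / kk β z v := by
    rw [← inv_div, ← inv_div (kk β z v), huv]
  have e6 : phi β (T z u) = phi β (T z v) := by
    rw [← sub_left_inj (a := phi β z), e3, e4, e5]
  exact T_inj hz hun hvn (h.inj _ _ (T_mem hz hun) (T_mem hz hvn) hTu hTv e6)

/-- the area theorem for the Koebe transform -/
theorem kk_area (h : Ext β) {z : ℂ} (hz : ‖z‖ < 1) (hz0 : z ≠ 0) :
    ‖deriv (deriv (kk β z)) 0‖ ≤ 2 :=
  area_k (kk_diff h hz) (kk_zero h hz hz0) (kk_inj h hz hz0)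

end Pool.Agent.Helper20.Kraus
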