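import Pool.Agent.Helper20.Kraus.Main

/-!
# The inequality of Kraus for the Schwarzian derivative: conclusion

`kraus`: `(1 - |z|²)² |S_φ(z)| ≤ 6` for `0 < |z| < 1`, with
`S_φ = N''/N - (3/2)(N'/N)² + (2/z)(N'/N)`.
-/

set_option autoImplicit false

open Complex Metric Set Filter Topology
open scoped Real ComplexConjugate

namespace Pool.Agent.Helper20.Kraus

open Pool.Agent.Helper39.Area
open Pool.Agent.Helper52.EK

variable {β : ℂ → ℂ}

/-- the Schwarzian derivative as a coefficient of the Koebe transform -/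
theorem kk_SN (h : Ext β) {z : ℂ} (hz : ‖z‖ < 1) (hz0 : z ≠ 0) :
    (1 - (‖z‖ : ℂ) ^ 2) ^ 2 * SN β z = -3 * deriv (deriv (kk β z)) 0 := by
  have hzp : 0 < ‖z‖ := norm_pos_iff.mpr hz0
  have hN0 := N_ne h hz
  have hb0 : ball (0:ℂ) ‖z‖ ∈ 𝓝 (0:ℂ) := ball_mem_nhds 0 hzp
  have h01 : ‖(0:ℂ)‖ < 1 := by simp
  have hkd := kk_diff h hz
  have hk1d : DifferentiableOn ℂ (deriv (kk β z)) (ball 0 1) := hkd.deriv isOpen_ball
  have hk2d : DifferentiableOn ℂ (deriv (deriv (kk β z))) (ball 0 1) := hk1d.deriv isOpen_ball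
  have hk : ∀ u : ℂ, ‖u‖ < 1 → HasDerivAt (kk β z) (deriv (kk β z) u) u := fun u hu =>
    (hkd.differentiableAt (isOpen_ball.mem_nhds (mem_ball_zero_iff.mpr hu))).hasDerivAt
  have hk1 : ∀ u : ℂ, ‖u‖ < 1 → HasDerivAt (deriv (kk β z)) (deriv (deriv (kk β z)) u) u :=
    fun u hu => (hk1d.differentiableAt (isOpen_ball.mem_nhds (mem_ball_zero_iff.mpr hu))).hasDerivAt
  have hk2 : HasDerivAt (deriv (deriv (kk β z))) (deriv (deriv (deriv (kk β z))) 0) 0 :=
    (hk2d.differentiableAt (isOpen_ball.mem_nhds (mem_ball_zero_iff.mpr h01))).hasDerivAt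
  have hk0 := kk_zero h hz hz0
  set k := kk β z with hkdef
  set M1 : ℂ → ℂ :=
    fun u => deriv (N β) (T z u) * ((1 - (‖z‖ : ℂ) ^ 2) / (1 + conj z * u) ^ 2) with hM1
  -- left-hand side
  have hL : ∀ u : ℂ, ‖u‖ < 1 → HasDerivAt (fun u => z ^ 2 * (N β (T z u) * k u ^ 2))
      (z ^ 2 * (M1 u * k u ^ 2 + N β (T z u) * (2 * k u * deriv k u))) u := by
    intro u hu
    have h1 : HasDerivAt (fun u => k u ^ 2) (2 * k u * deriv k u) u := by
      have := (hk u hu).fun_pow 2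
      simpa using this
    exact ((M_hasDerivAt h hz hu).fun_mul h1).const_mul (z ^ 2)
  have hR : ∀ u : ℂ, ‖u‖ < 1 → HasDerivAt
      (fun u => N β z * ((k u - u * deriv k u) * (u + z) ^ 2))
      (N β z * ((-(u * deriv (deriv k) u)) * (u + z) ^ 2 +
        (k u - u * deriv k u) * (2 * (u + z)))) u := by
    intro u hu
    have h1 : HasDerivAt (fun u => k u - u * deriv k u) (-(u * deriv (deriv k) u)) u := by
      have h2 := (hk u hu).fun_sub ((hasDerivAt_id' u).fun_mul (hk1 u hu))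
      have e : deriv k u - (1 * deriv k u + u * deriv (deriv k) u) = -(u * deriv (deriv k) u) := by
        ring
      rw [e] at h2
      exact h2
    have h3 : HasDerivAt (fun u : ℂ => (u + z) ^ 2) (2 * (u + z)) u := by
      have := ((hasDerivAt_id' u).add_const z).fun_pow 2
      simpa using this
    exact (h1.fun_mul h3).const_mul (N β z)
  -- first derivatives agree near the origin
  have hE : ∀ u : ℂ, ‖u‖ < ‖z‖ →
      z ^ 2 * (M1 u * k u ^ 2 + N β (T z u) * (2 * k u * deriv k u)) =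
      N β z * ((-(u * deriv (deriv k) u)) * (u + z) ^ 2 +
        (k u - u * deriv k u) * (2 * (u + z))) := by
    intro u hu
    have hb : ball (0:ℂ) ‖z‖ ∈ 𝓝 u := isOpen_ball.mem_nhds (mem_ball_zero_iff.mpr hu)
    have h1 : (fun u => z ^ 2 * (N β (T z u) * k u ^ 2)) =ᶠ[𝓝 u]
        fun u => N β z * ((k u - u * deriv k u) * (u + z) ^ 2) := by
      filter_upwards [hb] with v hv
      exact kk_ode h hz hz0 (mem_ball_zero_iff.mp hv)
    exact HasDerivAt.unique (hL u (hu.trans hz)) ((hR u (hu.trans hz)).congr_of_eventuallyEq h1)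
  -- second derivatives at the origin
  have hM1d : HasDerivAt M1 (deriv (deriv (N β)) z * (1 - (‖z‖ : ℂ) ^ 2) ^ 2
        - 2 * conj z * deriv (N β) z * (1 - (‖z‖ : ℂ) ^ 2)) 0 := M1_hasDerivAt h hz
  have hM0 := M_hasDerivAt h hz h01
  have hL2 : HasDerivAt
      (fun u => z ^ 2 * (M1 u * k u ^ 2 + N β (T z u) * (2 * k u * deriv k u)))
      (z ^ 2 * (((deriv (deriv (N β)) z * (1 - (‖z‖ : ℂ) ^ 2) ^ 2
        - 2 * conj z * deriv (N β) z * (1 - (‖z‖ : ℂ) ^ 2)) * k 0 ^ 2 +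
          M1 0 * (2 * k 0 * deriv k 0)) +
        (M1 0 * (2 * k 0 * deriv k 0) +
          N β (T z 0) * ((2 * deriv k 0) * deriv k 0 + 2 * k 0 * deriv (deriv k) 0)))) 0 := by
    have h1 : HasDerivAt (fun u => k u ^ 2) (2 * k 0 * deriv k 0) 0 := by
      have := (hk 0 h01).fun_pow 2
      simpa using this
    have h2 : HasDerivAt (fun u => 2 * k u * deriv k u)
        ((2 * deriv k 0) * deriv k 0 + 2 * k 0 * deriv (deriv k) 0) 0 :=
      ((hk 0 h01).const_mul 2).fun_mul (hk1 0 h01)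
    exact ((hM1d.fun_mul h1).fun_add (hM0.fun_mul h2)).const_mul (z ^ 2)
  have hR2 : HasDerivAt
      (fun u => N β z * ((-(u * deriv (deriv k) u)) * (u + z) ^ 2 +
        (k u - u * deriv k u) * (2 * (u + z))))
      (N β z * ((-(1 * deriv (deriv k) 0 + 0 * deriv (deriv (deriv k)) 0) * (0 + z) ^ 2 +
        (-((0:ℂ) * deriv (deriv k) 0)) * (2 * (0 + z))) +
        ((-((0:ℂ) * deriv (deriv k) 0)) * (2 * (0 + z)) +
        (k 0 - 0 * deriv k 0) * (2 * 1)))) 0 := by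
    have h1 : HasDerivAt (fun u => k u - u * deriv k u) (-((0:ℂ) * deriv (deriv k) 0)) 0 := by
      have h2 := (hk 0 h01).fun_sub ((hasDerivAt_id' (0:ℂ)).fun_mul (hk1 0 h01))
      have e : deriv k 0 - (1 * deriv k 0 + 0 * deriv (deriv k) 0) =
          -((0:ℂ) * deriv (deriv k) 0) := by ring
      rw [e] at h2
      exact h2
    have h3 : HasDerivAt (fun u : ℂ => (u + z) ^ 2) (2 * (0 + z)) 0 := by
      have := ((hasDerivAt_id' (0:ℂ)).add_const z).fun_pow 2
      simpa using this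
    have h4 : HasDerivAt (fun u => -(u * deriv (deriv k) u))
        (-(1 * deriv (deriv k) 0 + 0 * deriv (deriv (deriv k)) 0)) 0 :=
      ((hasDerivAt_id' (0:ℂ)).fun_mul hk2).fun_neg
    have h5 : HasDerivAt (fun u : ℂ => 2 * (u + z)) (2 * 1) 0 :=
      ((hasDerivAt_id' (0:ℂ)).add_const z).const_mul 2
    exact ((h4.fun_mul h3).fun_add (h1.fun_mul h5)).const_mul (N β z)
  have h2E : (fun u => z ^ 2 * (M1 u * k u ^ 2 + N β (T z u) * (2 * k u * deriv k u))) =ᶠ[𝓝 0]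
      (fun u => N β z * ((-(u * deriv (deriv k) u)) * (u + z) ^ 2 +
        (k u - u * deriv k u) * (2 * (u + z)))) := by
    filter_upwards [hb0] with v hv
    exact hE v (mem_ball_zero_iff.mp hv)
  have e2 := HasDerivAt.unique hL2 (hR2.congr_of_eventuallyEq h2E)
  have e1 := hE 0 (by simpa using hzp)
  have hM10 : M1 0 = deriv (N β) z * (1 - (‖z‖ : ℂ) ^ 2) := by
    rw [hM1]
    simp [T_zero]
  rw [hM10, T_zero, hk0] at e1 e2
  set a := deriv k 0
  set b := deriv (deriv k) 0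
  set t : ℂ := 1 - (‖z‖ : ℂ) ^ 2 with ht
  have htz : t = 1 - conj z * z := by
    rw [ht, ← Complex.mul_conj']
    ring
  set n := N β z
  set n1 := deriv (N β) z
  set n2 := deriv (deriv (N β)) z
  -- `e1 : z²(n1 t + 2 n a) = 2 n z`, `e2` second order
  have ha : a = 1 / z - n1 * t / (2 * n) := by
    field_simp
    have := mul_left_cancel₀ hz0 (show z * (z * (n1 * t + 2 * n * a)) = z * (2 * n) by
      linear_combination e1)
    linear_combination this
  have hbb : 3 * b * n * z ^ 2 = 2 * n - z ^ 2 * (n2 * t ^ 2 - 2 * conj z * n1 * t) -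
      4 * z ^ 2 * (n1 * t) * a - 2 * z ^ 2 * n * a ^ 2 := by
    linear_combination e2
  have hb3 : -3 * b = t ^ 2 * SN β z := by
    have e3 : 3 * b = (2 * n - z ^ 2 * (n2 * t ^ 2 - 2 * conj z * n1 * t) -
        4 * z ^ 2 * (n1 * t) * a - 2 * z ^ 2 * n * a ^ 2) / (n * z ^ 2) := by
      rw [eq_div_iff (mul_ne_zero hN0 (pow_ne_zero 2 hz0))]
      linear_combination hbb
    have e4 : conj z = (1 - t) / z := by
      rw [eq_div_iff hz0, htz]
      ring
    rw [ha, e4] at e3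
    have e5 : -3 * b = -(3 * b) := by ring
    rw [e5, e3]
    unfold SN
    change -_ = t ^ 2 * (n2 / n - 3 / 2 * (n1 / n) ^ 2 + 2 / z * (n1 / n))
    field_simp
    ring
  exact hb3.symm

/-- **Kraus.** `(1 - |z|²)² |S_φ(z)| ≤ 6` for `0 < |z| < 1`. -/
theorem kraus (h : Ext β) {z : ℂ} (hz : ‖z‖ < 1) (hz0 : z ≠ 0) :
    (1 - ‖z‖ ^ 2) ^ 2 * ‖SN β z‖ ≤ 6 := by
  have h1 := kk_SN h hz hz0
  have h2 := kk_area h hz hz0
  have h3 : (1 - ‖z‖ ^ 2) ^ 2 * ‖SN β z‖ = ‖(1 - (‖z‖ : ℂ) ^ 2) ^ 2 * SN β z‖ := by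
    rw [norm_mul, norm_pow]
    congr 2
    have h4 : (1 - (‖z‖ : ℂ) ^ 2) = ((1 - ‖z‖ ^ 2 : ℝ) : ℂ) := by push_cast; ring
    rw [h4, Complex.norm_real, Real.norm_of_nonneg]
    nlinarith [norm_nonneg z]
  rw [h3, h1, norm_mul, norm_neg]
  have h5 : ‖(3:ℂ)‖ = 3 := by simp
  rw [h5]
  linarith

end Pool.Agent.Helper20.Kraus
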