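import Pool.Agent.Helper20.Kraus.Disc

/-!
# The inequality of Kraus for the Schwarzian derivative: main statement

`N β z = ψ'(1/z)` and `φ' = -N/z²`, so that the Schwarzian derivative of `φ` is
`S_φ = (N'/N)' - (1/2)(N'/N)² + (2/z)(N'/N)`.
-/

set_option autoImplicit false

open Complex Metric Set Filter Topology
open scoped Real ComplexConjugate

namespace Pool.Agent.Helper20.Kraus

open Pool.Agent.Helper39.Area
open Pool.Agent.Helper52.EK

variable {β : ℂ → ℂ}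

/-- the Schwarzian derivative of `φ` away from the origin, in terms of `N` -/
noncomputable def SN (β : ℂ → ℂ) (z : ℂ) : ℂ :=
  deriv (deriv (N β)) z / N β z - 3 / 2 * (deriv (N β) z / N β z) ^ 2
    + 2 / z * (deriv (N β) z / N β z)

theorem N_diff (h : Ext β) : DifferentiableOn ℂ (N β) (ball 0 1) := by
  unfold N
  have h1 : DifferentiableOn ℂ (deriv β) (ball 0 1) := h.diff.deriv isOpen_ball
  have h2 : DifferentiableOn ℂ (fun z : ℂ => z ^ 2) (ball 0 1) := by fun_prop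
  exact (differentiableOn_const _).sub (h2.mul h1)

theorem N_ne (h : Ext β) {z : ℂ} (hz : ‖z‖ < 1) : N β z ≠ 0 := h.ne z (mem_ball_zero_iff.mpr hz)

/-- `SN` is the usual formula -/
theorem SN_eq (h : Ext β) {z : ℂ} (hz : ‖z‖ < 1) :
    SN β z = deriv (fun w => deriv (N β) w / N β w) z - 1 / 2 * (deriv (N β) z / N β z) ^ 2
      + 2 / z * (deriv (N β) z / N β z) := by
  have hzb : z ∈ ball (0:ℂ) 1 := mem_ball_zero_iff.mpr hz
  have hb : ball (0:ℂ) 1 ∈ 𝓝 z := isOpen_ball.mem_nhds hzb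
  have hN := N_diff h
  have hN0 := N_ne h hz
  have h1 : HasDerivAt (N β) (deriv (N β) z) z := (hN.differentiableAt hb).hasDerivAt
  have h2 : HasDerivAt (deriv (N β)) (deriv (deriv (N β)) z) z :=
    ((hN.deriv isOpen_ball).differentiableAt hb).hasDerivAt
  have h3 := (h2.div h1 hN0).deriv
  have h4 : deriv (fun w => deriv (N β) w / N β w) z =
      (deriv (deriv (N β)) z * N β z - deriv (N β) z * deriv (N β) z) / N β z ^ 2 := h3
  rw [h4, SN]
  field_simp
  ring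

/-- the function `N` along the automorphism -/
theorem M_hasDerivAt (h : Ext β) {z u : ℂ} (hz : ‖z‖ < 1) (hu : ‖u‖ < 1) :
    HasDerivAt (fun u => N β (T z u))
      (deriv (N β) (T z u) * ((1 - (‖z‖ : ℂ) ^ 2) / (1 + conj z * u) ^ 2)) u := by
  have hT := T_mem hz hu
  have h1 : HasDerivAt (N β) (deriv (N β) (T z u)) (T z u) :=
    ((N_diff h).differentiableAt (isOpen_ball.mem_nhds hT)).hasDerivAt
  exact h1.comp u (T_hasDerivAt hz hu)

theorem M1_hasDerivAt (h : Ext β) {z : ℂ} (hz : ‖z‖ < 1) :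
    HasDerivAt (fun u => deriv (N β) (T z u) * ((1 - (‖z‖ : ℂ) ^ 2) / (1 + conj z * u) ^ 2))
      (deriv (deriv (N β)) z * (1 - (‖z‖ : ℂ) ^ 2) ^ 2
        - 2 * conj z * deriv (N β) z * (1 - (‖z‖ : ℂ) ^ 2)) 0 := by
  have h0 : ‖(0:ℂ)‖ < 1 := by simp
  have hzb : z ∈ ball (0:ℂ) 1 := mem_ball_zero_iff.mpr hz
  have h1 : HasDerivAt (deriv (N β)) (deriv (deriv (N β)) z) (T z 0) := by
    rw [T_zero]
    exact (((N_diff h).deriv isOpen_ball).differentiableAt (isOpen_ball.mem_nhds hzb)).hasDerivAt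
  have h2 := h1.comp (0:ℂ) (T_hasDerivAt hz h0)
  have h3 : HasDerivAt (fun u : ℂ => (1 + conj z * u) ^ 2)
      (2 * (1 + conj z * 0) ^ 1 * (conj z)) 0 := by
    have h4 : HasDerivAt (fun u : ℂ => 1 + conj z * u) (conj z) 0 := by
      simpa using ((hasDerivAt_id (0:ℂ)).const_mul (conj z)).const_add 1
    exact h4.pow 2
  have h5 : HasDerivAt (fun u : ℂ => (1 - (‖z‖ : ℂ) ^ 2) / (1 + conj z * u) ^ 2)
      ((0 * (1 + conj z * 0) ^ 2 - (1 - (‖z‖ : ℂ) ^ 2) * (2 * (1 + conj z * 0) ^ 1 * (conj z))) /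
        ((1 + conj z * 0) ^ 2) ^ 2) 0 :=
    (hasDerivAt_const (0:ℂ) (1 - (‖z‖ : ℂ) ^ 2)).div h3 (by simp)
  have h6 := h2.mul h5
  have e : deriv (deriv (N β)) z * ((1 - (‖z‖ : ℂ) ^ 2) / (1 + conj z * 0) ^ 2) *
        ((1 - (‖z‖ : ℂ) ^ 2) / (1 + conj z * 0) ^ 2) +
      (deriv (N β) ∘ T z) 0 * ((0 * (1 + conj z * 0) ^ 2 - (1 - (‖z‖ : ℂ) ^ 2) *
        (2 * (1 + conj z * 0) ^ 1 * (conj z))) / ((1 + conj z * 0) ^ 2) ^ 2) =
      deriv (deriv (N β)) z * (1 - (‖z‖ : ℂ) ^ 2) ^ 2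
        - 2 * conj z * deriv (N β) z * (1 - (‖z‖ : ℂ) ^ 2) := by
    rw [Function.comp_apply, T_zero]
    simp only [mul_zero, add_zero, one_pow, div_one]
    ring
  rw [e] at h6
  exact h6

/-- the differential equation of `kk` -/
theorem kk_ode (h : Ext β) {z u : ℂ} (hz : ‖z‖ < 1) (hz0 : z ≠ 0) (hu : ‖u‖ < ‖z‖) :
    z ^ 2 * (N β (T z u) * kk β z u ^ 2) =
      N β z * ((kk β z u - u * deriv (kk β z) u) * (u + z) ^ 2) := by
  have hb : ball (0:ℂ) ‖z‖ ∈ 𝓝 u := isOpen_ball.mem_nhds (mem_ball_zero_iff.mpr hu)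
  have hu1 : ‖u‖ < 1 := hu.trans hz
  have hub : u ∈ ball (0:ℂ) 1 := mem_ball_zero_iff.mpr hu1
  have hne : ∀ v : ℂ, ‖v‖ < ‖z‖ → v + z ≠ 0 := by
    intro v hv h0
    have h1 : v = -z := by linear_combination h0
    rw [h1, norm_neg] at hv
    exact lt_irrefl _ hv
  have hTne : ∀ v : ℂ, ‖v‖ < ‖z‖ → T z v ≠ 0 := by
    intro v hv
    exact div_ne_zero (hne v hv) (den_ne hz (hv.trans hz))
  have hd := den_ne hz hu1
  -- derivative of `φ ∘ T`
  have hT := T_mem hz hu1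
  have hA : HasDerivAt (fun v => phi β (T z v) - phi β z)
      (dphi β (T z u) * ((1 - (‖z‖ : ℂ) ^ 2) / (1 + conj z * u) ^ 2)) u :=
    ((hasDerivAt_phi h.diff hT (hTne u hu)).comp u (T_hasDerivAt hz hu1)).sub_const _
  have hk : HasDerivAt (kk β z) (deriv (kk β z) u) u :=
    ((kk_diff h hz).differentiableAt (isOpen_ball.mem_nhds hub)).hasDerivAt
  have h1 := hk.mul hA
  set c : ℂ := -(N β z * (1 - (‖z‖ : ℂ) ^ 2) / z ^ 2) with hc
  have h2 : HasDerivAt (fun v : ℂ => c * v) c u := by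
    simpa using (hasDerivAt_id u).const_mul c
  have h3 : (fun v : ℂ => c * v) =ᶠ[𝓝 u] fun v => kk β z v * (phi β (T z v) - phi β z) := by
    filter_upwards [hb] with v hv
    have hv' := mem_ball_zero_iff.mp hv
    exact (kk_phi h hz hz0 (hv'.trans hz) (hTne v hv')).symm
  have h4 : deriv (kk β z) u * (phi β (T z u) - phi β z) +
      kk β z u * (dphi β (T z u) * ((1 - (‖z‖ : ℂ) ^ 2) / (1 + conj z * u) ^ 2)) = c :=
    HasDerivAt.unique h1 (h2.congr_of_eventuallyEq h3.symm)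
  have h5 := kk_phi h hz hz0 hu1 (hTne u hu)
  rw [← hc] at h5
  have h6 : dphi β (T z u) * ((1 - (‖z‖ : ℂ) ^ 2) / (1 + conj z * u) ^ 2) =
      -((1 - (‖z‖ : ℂ) ^ 2) * N β (T z u)) / (u + z) ^ 2 := by
    have e1 : u + z = T z u * (1 + conj z * u) := by
      rw [T, div_mul_cancel₀ _ hd]
    have e2 : dphi β (T z u) = -N β (T z u) / (T z u) ^ 2 := by
      have := hTne u hu
      unfold dphi N
      field_simp
      ring
    rw [e2, e1]
    have := hTne u hu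
    field_simp
  rw [h6] at h4
  have h7 : c * (kk β z u - u * deriv (kk β z) u) =
      kk β z u ^ 2 * (-((1 - (‖z‖ : ℂ) ^ 2) * N β (T z u)) / (u + z) ^ 2) := by
    linear_combination (-kk β z u) * h4 + deriv (kk β z) u * h5
  have hn := hne u hu
  have ht := one_sub_ne hz
  rw [hc] at h7
  field_simp at h7
  linear_combination h7

end Pool.Agent.Helper20.Kraus
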