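import Pool.Agent.Helper20.Kraus.All
import Pool.Agent.Helper97.EK.E3a

/-!
# The inequality of Kraus in the strip coordinate

With `X = Xf β a`, `q = X'/X`, `q' = (X'/X)'` at the point `ξ + i η`, and `z = zf (ξ + i η)`:

* `S_strip`: `1/2 - 2X² + q' - q²/2 = (zd)² S_φ(z)`;
* `sigma_rad`: `(z/|z|)² (1-|z|²)² S_φ(z)/4 = ph² · σ`, `σ = -s² e₀ (1/2 - 2X² + q' - q²/2)`;
* `kraus_strip`: `s² |1/2 - 2X² + q' - q²/2| ≤ 3/2`.
-/

set_option autoImplicit false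

open Complex Metric Set Filter Topology
open scoped Real ComplexConjugate

namespace Pool.Agent.Helper20.Kraus

open Pool.Agent.Helper39.Area
open Pool.Agent.Helper52.EK
open Pool.Agent.Helper97.EK (ph deriv_Xf hasDerivAt_zf hasDerivAt_zd zf_mem zf_ne zf_ne_a dphi_eq
  addI_ne subI_ne subconj_ne e0_eq norm_zf conj_zf)

variable {β : ℂ → ℂ}

/-- the Schwarzian in the strip: `1/2 - 2X² + q' - q²/2` -/
noncomputable def Sst (X q q1 : ℂ) : ℂ := 1 / 2 - 2 * X ^ 2 + q1 - q ^ 2 / 2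

/-- `P = N'/N - 2/z` -/
noncomputable def PP (β : ℂ → ℂ) (z : ℂ) : ℂ := deriv (N β) z / N β z - 2 / z

/-- its derivative -/
noncomputable def PP1 (β : ℂ → ℂ) (z : ℂ) : ℂ :=
  deriv (deriv (N β)) z / N β z - (deriv (N β) z / N β z) ^ 2 + 2 / z ^ 2

theorem PP_hasDerivAt (h : Ext β) {z : ℂ} (hz : z ∈ ball (0:ℂ) 1) (hz0 : z ≠ 0) :
    HasDerivAt (PP β) (PP1 β z) z := by
  have hb : ball (0:ℂ) 1 ∈ 𝓝 z := isOpen_ball.mem_nhds hz
  have hN := N_diff h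
  have hN0 := N_ne h (mem_ball_zero_iff.mp hz)
  have h1 : HasDerivAt (N β) (deriv (N β) z) z := (hN.differentiableAt hb).hasDerivAt
  have h2 : HasDerivAt (deriv (N β)) (deriv (deriv (N β)) z) z :=
    ((hN.deriv isOpen_ball).differentiableAt hb).hasDerivAt
  have h3 := (h2.fun_div h1 hN0).fun_sub
    ((hasDerivAt_const z (2:ℂ)).fun_div (hasDerivAt_id' z) hz0)
  have e : (deriv (deriv (N β)) z * N β z - deriv (N β) z * deriv (N β) z) / N β z ^ 2 -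
      (0 * z - 2 * 1) / z ^ 2 = PP1 β z := by
    unfold PP1
    field_simp
    ring
  rw [e] at h3
  exact h3

theorem SN_PP (h : Ext β) {z : ℂ} (hz : z ∈ ball (0:ℂ) 1) (hz0 : z ≠ 0) :
    SN β z = PP1 β z - PP β z ^ 2 / 2 := by
  have hN0 := N_ne h (mem_ball_zero_iff.mp hz)
  unfold SN PP PP1
  field_simp
  ring

/-- all the conditions on a point of the strip -/
structure Good (β : ℂ → ℂ) (a : ℝ) (ω : ℂ) : Prop where
  addI : I + Complex.exp ω ≠ 0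
  mem : zf ω ∈ ball (0 : ℂ) 1
  ne0 : zf ω ≠ 0
  nea : phi β (zf ω) - phi β (a : ℂ) ≠ 0

theorem good_of (h : Ext β) {a : ℝ} (ha : 0 < a) (ha1 : a < 1) {ξ η : ℝ} (h0 : 0 < η)
    (h1 : η < π) (hξ : ξ < 0) (hξ1 : Real.log (tau a) < ξ) : Good β a (pt ξ η) := by
  have hz := zf_mem (ξ := ξ) h0 h1
  have hz0 := zf_ne h0 h1 hξ
  have hza := zf_ne_a ha ha1 h0 h1 hξ1
  have haB : (a : ℂ) ∈ ball (0 : ℂ) 1 := by
    rw [mem_ball_zero_iff, Complex.norm_real, Real.norm_of_nonneg ha.le]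
    exact ha1
  have ha0 : (a : ℂ) ≠ 0 := Complex.ofReal_ne_zero.2 ha.ne'
  exact ⟨addI_ne h0 h1, hz, hz0, fun h2 => hza (h.inj _ _ hz haB hz0 ha0 (sub_eq_zero.1 h2))⟩

theorem Good.X_ne {a : ℝ} {ω : ℂ} (h : Ext β) (hg : Good β a ω) : Xf β a ω ≠ 0 := by
  have hN : N β (zf ω) ≠ 0 := h.ne _ hg.mem
  have hdphi : dphi β (zf ω) ≠ 0 := by
    rw [dphi_eq hg.ne0]
    exact div_ne_zero (neg_ne_zero.2 hN) (pow_ne_zero 2 hg.ne0)
  have hzd : zd ω ≠ 0 := by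
    unfold zd
    refine div_ne_zero (mul_ne_zero (mul_ne_zero (by norm_num) Complex.I_ne_zero)
      (Complex.exp_ne_zero _)) (pow_ne_zero 2 ?_)
    rw [add_comm]
    exact hg.addI
  unfold Xf
  exact div_ne_zero (mul_ne_zero hzd hdphi) (mul_ne_zero two_ne_zero hg.nea)

theorem Good.eventually {a : ℝ} {ω : ℂ} (h : Ext β) (hg : Good β a ω) :
    ∀ᶠ v in 𝓝 ω, Good β a v := by
  have c1 : ContinuousAt (fun v : ℂ => I + Complex.exp v) ω := by fun_prop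
  have c2 : ContinuousAt zf ω := (hasDerivAt_zf hg.addI).continuousAt
  have c3 : ContinuousAt (fun v => phi β (zf v) - phi β (a : ℂ)) ω :=
    ((((hasDerivAt_phi h.diff hg.mem hg.ne0).continuousAt.comp c2)).sub continuousAt_const)
  filter_upwards [c1.eventually_ne hg.addI, c2.eventually (isOpen_ball.mem_nhds hg.mem),
    c2.eventually_ne hg.ne0, c3.eventually_ne hg.nea] with v v1 v2 v3 v4
  exact ⟨v1, v2, v3, v4⟩

theorem Xf_hasDerivAt {a : ℝ} {ω : ℂ} (h : Ext β) (hg : Good β a ω) :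
    HasDerivAt (Xf β a) (Xf β a ω * (zf ω + zd ω * PP β (zf ω) - 2 * Xf β a ω)) ω := by
  have e := deriv_Xf h hg.addI hg.mem hg.ne0 hg.nea
  have e2 : deriv (Xf β a) ω = Xf β a ω * (zf ω + zd ω * PP β (zf ω) - 2 * Xf β a ω) := e
  rw [← e2]
  have h1 := hasDerivAt_zf hg.addI
  have h2 := hasDerivAt_zd hg.addI
  have h3 := (Pool.Agent.Helper97.EK.hasDerivAt_dphi h hg.mem hg.ne0).comp ω h1
  have h4 := ((hasDerivAt_phi h.diff hg.mem hg.ne0).comp ω h1).sub_const (phi β (a : ℂ))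
  have h5 := (h2.mul h3).div (h4.const_mul 2) (mul_ne_zero two_ne_zero hg.nea)
  have h6 : DifferentiableAt ℂ (Xf β a) ω := h5.differentiableAt
  exact h6.hasDerivAt

/-- the Schwarzian derivative in the strip coordinate -/
theorem S_strip {a : ℝ} {ω : ℂ} (h : Ext β) (hg : Good β a ω) {q q1 : ℂ}
    (hq : deriv (Xf β a) ω = Xf β a ω * q)
    (hq1 : deriv (deriv (Xf β a)) ω = Xf β a ω * (q ^ 2 + q1)) :
    Sst (Xf β a ω) q q1 = zd ω ^ 2 * SN β (zf ω) := by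
  have hX := hg.X_ne h
  have d1 := Xf_hasDerivAt h hg
  have hqe : q = zf ω + zd ω * PP β (zf ω) - 2 * Xf β a ω := by
    rw [d1.deriv] at hq
    exact (mul_left_cancel₀ hX hq).symm
  -- second derivative
  have hev : deriv (Xf β a) =ᶠ[𝓝 ω]
      fun v => Xf β a v * (zf v + zd v * PP β (zf v) - 2 * Xf β a v) := by
    filter_upwards [hg.eventually h] with v hv
    exact (Xf_hasDerivAt h hv).deriv
  have z1 := hasDerivAt_zf hg.addI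
  have z2 := hasDerivAt_zd hg.addI
  have p1 : HasDerivAt (fun v => PP β (zf v)) (PP1 β (zf ω) * zd ω) ω :=
    (PP_hasDerivAt h hg.mem hg.ne0).comp ω z1
  have d2 := d1.fun_mul ((z1.fun_add (z2.fun_mul p1)).fun_sub (d1.const_mul 2))
  have hd2 := hev.deriv_eq.trans d2.deriv
  rw [hd2] at hq1
  rw [← hqe] at hq1
  have e1 : q ^ 2 + q1 = q * q + (zd ω + (zd ω * zf ω * PP β (zf ω) +
      zd ω * (PP1 β (zf ω) * zd ω)) - 2 * (Xf β a ω * q)) := by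
    apply mul_left_cancel₀ hX
    rw [← hq1]
    ring
  have e2 : zd ω - zf ω ^ 2 / 2 = -1 / 2 := by
    have h1 := hg.addI
    have h2 : Complex.exp ω + I ≠ 0 := by rwa [add_comm]
    unfold zd zf
    rw [add_comm I (Complex.exp ω)]
    field_simp
    ring
  rw [SN_PP h hg.mem hg.ne0, Sst]
  linear_combination e1 + e2 - (1 / 2) * (q + (zf ω + zd ω * PP β (zf ω) + 2 * Xf β a ω)) * hqe

/-- the size of the derivative of the chart -/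
theorem zd_norm {ξ η : ℝ} (h0 : 0 < η) (h1 : η < π) :
    Real.sin η ^ 2 * ‖zd (pt ξ η)‖ ^ 2 = (1 - ‖zf (pt ξ η)‖ ^ 2) ^ 2 / 4 := by
  have a1 := addI_ne (ξ := ξ) h0 h1
  have hZ := Pool.Agent.Helper97.EK.exp_pt_im ξ η
  have hn := Pool.Agent.Helper97.EK.norm_exp_pt ξ η
  have hy := Real.exp_pos ξ
  rw [norm_zf]
  unfold zd
  rw [norm_div, norm_mul, norm_mul, norm_neg, norm_pow, Complex.norm_I, hn]
  have h2 : ‖(2:ℂ)‖ = 2 := by simp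
  rw [h2, add_comm (Complex.exp (pt ξ η)) I]
  set Z := Complex.exp (pt ξ η) with hZd
  have hnp : 0 < ‖I + Z‖ := norm_pos_iff.mpr a1
  have e1 : ‖I - Z‖ ^ 2 = ‖I + Z‖ ^ 2 - 4 * (Real.exp ξ * Real.sin η) := by
    rw [← hZ, ← Complex.normSq_eq_norm_sq, ← Complex.normSq_eq_norm_sq, Complex.normSq_apply,
      Complex.normSq_apply]
    simp only [add_re, add_im, sub_re, sub_im, I_re, I_im]
    ring
  have e2 : 1 - (‖I - Z‖ / ‖I + Z‖) ^ 2 = 4 * (Real.exp ξ * Real.sin η) / ‖I + Z‖ ^ 2 := by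
    rw [div_pow, e1]
    field_simp
    ring
  rw [e2]
  field_simp
  ring

/-- **Kraus in the strip** -/
theorem kraus_strip_of {a : ℝ} (h : Ext β) {ξ η : ℝ} (h0 : 0 < η) (h1 : η < π)
    (hg : Good β a (pt ξ η)) {q q1 : ℂ}
    (hq : deriv (Xf β a) (pt ξ η) = Xf β a (pt ξ η) * q)
    (hq1 : deriv (deriv (Xf β a)) (pt ξ η) = Xf β a (pt ξ η) * (q ^ 2 + q1)) :
    Real.sin η ^ 2 * ‖Sst (Xf β a (pt ξ η)) q q1‖ ≤ 3 / 2 := by
  have hk := kraus_all h (mem_ball_zero_iff.mp hg.mem)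
  have hz := zd_norm (ξ := ξ) h0 h1
  rw [S_strip h hg hq hq1, norm_mul, norm_pow]
  have e : Real.sin η ^ 2 * (‖zd (pt ξ η)‖ ^ 2 * ‖SN β (zf (pt ξ η))‖) =
      (1 - ‖zf (pt ξ η)‖ ^ 2) ^ 2 / 4 * ‖SN β (zf (pt ξ η))‖ := by
    rw [← hz]
    ring
  rw [e]
  linarith

/-- **Kraus in the strip**, with the conditions written out -/
theorem kraus_strip {a : ℝ} (h : Ext β) (ha : 0 < a) (ha1 : a < 1) {ξ η : ℝ} (h0 : 0 < η)
    (h1 : η < π) (hξ : ξ < 0) (hξ1 : Real.log (tau a) < ξ) {q q1 : ℂ}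
    (hq : deriv (Xf β a) (pt ξ η) = Xf β a (pt ξ η) * q)
    (hq1 : deriv (deriv (Xf β a)) (pt ξ η) = Xf β a (pt ξ η) * (q ^ 2 + q1)) :
    Real.sin η ^ 2 * ‖Sst (Xf β a (pt ξ η)) q q1‖ ≤ 3 / 2 :=
  kraus_strip_of h h0 h1 (good_of h ha ha1 h0 h1 hξ hξ1) hq hq1

/-- algebra for the frame factor -/
theorem frame_alg (Z W r₁ r₂ sq : ℂ) (hZ : Z ≠ 0) (hW : W ≠ 0) (h1 : I + Z ≠ 0) (h2 : I - Z ≠ 0)
    (h3 : I - W ≠ 0) (h4 : -I - W ≠ 0) (hr1 : r₁ ≠ 0) (hr2 : r₂ ≠ 0)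
    (e1 : r₁ ^ 2 = (I - Z) * (-I - W)) (e2 : r₂ ^ 2 = (I + Z) * (-I + W))
    (es : sq * (-4 * (Z * W)) = (Z - W) ^ 2) :
    ((I - Z) / (I + Z) / (r₁ / r₂)) ^ 2 * (1 - (r₁ / r₂) ^ 2) ^ 2 / 4 =
      (r₂ / r₁ * ((I - Z) / (I - W))) ^ 2 * (sq * -(W / Z)) * (-2 * I * Z / (Z + I) ^ 2) ^ 2 := by
  have h5 : Z + I ≠ 0 := by rwa [add_comm]
  have h6 : -I + W ≠ 0 := by
    intro h
    exact h3 (by linear_combination -h)
  have es' : sq = (Z - W) ^ 2 / (-4 * (Z * W)) := by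
    rw [eq_div_iff (mul_ne_zero (by norm_num) (mul_ne_zero hZ hW))]
    exact es
  have k1 : ((I - Z) / (I + Z) / (r₁ / r₂)) ^ 2 =
      (I - Z) * (-I + W) / ((I + Z) * (-I - W)) := by
    have : ((I - Z) / (I + Z) / (r₁ / r₂)) ^ 2 = (I - Z) ^ 2 / (I + Z) ^ 2 * (r₂ ^ 2 / r₁ ^ 2) := by
      field_simp
    rw [this, e1, e2]
    field_simp
  have k2 : (1 - (r₁ / r₂) ^ 2) = 2 * I * (W - Z) / ((I + Z) * (-I + W)) := by
    rw [div_pow, e1, e2, eq_div_iff (mul_ne_zero h1 h6), sub_mul,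
      div_mul_cancel₀ _ (mul_ne_zero h1 h6)]
    ring
  have k3 : (r₂ / r₁ * ((I - Z) / (I - W))) ^ 2 =
      (I + Z) * (I - Z) * (-I + W) / ((-I - W) * (I - W) ^ 2) := by
    rw [mul_pow, div_pow, e1, e2]
    field_simp
  rw [k1, k2, k3, es', add_comm Z I]
  have h7 : -I + W = -(I - W) := by ring
  rw [h7]
  field_simp
  ring

/-- the second invariant in the radial frame, with the sign which fits `mrad` -/
noncomputable def sigR (β : ℂ → ℂ) (z : ℂ) : ℂ :=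
  -((z / ‖z‖) ^ 2 * (1 - (‖z‖ : ℂ) ^ 2) ^ 2 * SN β z / 4)

/-- the second invariant in the strip: `s² e^(-2 i η) (1/2 - 2X² + q' - q²/2)` -/
noncomputable def sig (X q q1 : ℂ) (s c : ℝ) : ℂ :=
  (s : ℂ) ^ 2 * ((c : ℂ) - (s : ℂ) * I) ^ 2 * Sst X q q1

/-- the frame factor of the second invariant -/
theorem frame2 {ξ η : ℝ} (h0 : 0 < η) (h1 : η < π) (hξ : ξ < 0) :
    (zf (pt ξ η) / ‖zf (pt ξ η)‖) ^ 2 * (1 - (‖zf (pt ξ η)‖ : ℂ) ^ 2) ^ 2 / 4 =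
      ph (Complex.exp (pt ξ η)) ^ 2 * ((Real.sin η : ℂ) ^ 2 * e0 (Real.sin η) (Real.cos η)) *
        zd (pt ξ η) ^ 2 := by
  have a1 := addI_ne (ξ := ξ) h0 h1
  have a2 := subI_ne (η := η) hξ
  have a3 := subconj_ne (ξ := ξ) h0 h1
  have hZi := Pool.Agent.Helper97.EK.exp_pt_im ξ η
  have hn := Pool.Agent.Helper97.EK.norm_exp_pt ξ η
  have hy := Real.exp_pos ξ
  rw [norm_zf, e0_eq ξ η, Complex.ofReal_div]
  unfold ph zd
  set Z := Complex.exp (pt ξ η) with hZd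
  have hZ0 : Z ≠ 0 := Complex.exp_ne_zero _
  have hW0 : conj Z ≠ 0 := by simpa using hZ0
  have a4 : -I - conj Z ≠ 0 := by
    intro h
    apply a2
    have := congrArg conj h
    simp only [map_sub, map_neg, conj_I, neg_neg, Complex.conj_conj, map_zero] at this
    exact this
  have e1 : ((‖I - Z‖ : ℝ) : ℂ) ^ 2 = (I - Z) * (-I - conj Z) := by
    rw [← Complex.mul_conj', map_sub, conj_I]
  have e2 : ((‖I + Z‖ : ℝ) : ℂ) ^ 2 = (I + Z) * (-I + conj Z) := by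
    rw [← Complex.mul_conj', map_add, conj_I]
  have es : (Real.sin η : ℂ) ^ 2 * (-4 * (Z * conj Z)) = (Z - conj Z) ^ 2 := by
    rw [Complex.mul_conj', hn, Complex.sub_conj, hZi]
    push_cast
    linear_combination (-4 * (Complex.exp ξ) ^ 2 * (Complex.sin η) ^ 2) * I_sq
  have hf := frame_alg Z (conj Z) (‖I - Z‖ : ℂ) (‖I + Z‖ : ℂ) ((Real.sin η : ℂ) ^ 2)
    hZ0 hW0 a1 a2 a3 a4 (Complex.ofReal_ne_zero.2 (norm_ne_zero_iff.2 a2))
    (Complex.ofReal_ne_zero.2 (norm_ne_zero_iff.2 a1)) e1 e2 es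
  rw [Complex.ofReal_div]
  exact hf

/-- the second invariant: disc and strip -/
theorem sigma_rad {a : ℝ} (h : Ext β) (ha : 0 < a) (ha1 : a < 1) {ξ η : ℝ} (h0 : 0 < η)
    (h1 : η < π) (hξ : ξ < 0) (hξ1 : Real.log (tau a) < ξ) {q q1 : ℂ}
    (hq : deriv (Xf β a) (pt ξ η) = Xf β a (pt ξ η) * q)
    (hq1 : deriv (deriv (Xf β a)) (pt ξ η) = Xf β a (pt ξ η) * (q ^ 2 + q1)) :
    sigR β (zf (pt ξ η)) = ph (Complex.exp (pt ξ η)) ^ 2 *
      sig (Xf β a (pt ξ η)) q q1 (Real.sin η) (Real.cos η) := by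
  have hf := frame2 h0 h1 hξ
  have hS := S_strip h (good_of h ha ha1 h0 h1 hξ hξ1) hq hq1
  unfold sigR sig
  rw [hS]
  have e : -((zf (pt ξ η) / ‖zf (pt ξ η)‖) ^ 2 * (1 - (‖zf (pt ξ η)‖ : ℂ) ^ 2) ^ 2 *
      SN β (zf (pt ξ η)) / 4) = -((zf (pt ξ η) / ‖zf (pt ξ η)‖) ^ 2 *
      (1 - (‖zf (pt ξ η)‖ : ℂ) ^ 2) ^ 2 / 4) * SN β (zf (pt ξ η)) := by ring
  rw [e, hf]
  unfold e0
  ring

/-- the bound of the second invariant in the disc -/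
theorem norm_sigR_le (h : Ext β) {z : ℂ} (hz : ‖z‖ < 1) : ‖sigR β z‖ ≤ 3 / 2 := by
  have hk := kraus_all h hz
  have h3 : ‖(1 - (‖z‖ : ℂ) ^ 2) ^ 2‖ = (1 - ‖z‖ ^ 2) ^ 2 := by
    have h4 : (1 - (‖z‖ : ℂ) ^ 2) ^ 2 = (((1 - ‖z‖ ^ 2) ^ 2 : ℝ) : ℂ) := by push_cast; ring
    rw [h4, Complex.norm_real, Real.norm_of_nonneg (sq_nonneg _)]
  have h5 : ‖(z / ‖z‖ : ℂ)‖ ≤ 1 := by
    rw [norm_div, Complex.norm_real, norm_norm]
    exact div_self_le_one _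
  have h6 : ‖(4:ℂ)‖ = 4 := by simp
  unfold sigR
  rw [norm_neg, norm_div, norm_mul, norm_mul, norm_pow, h3, h6]
  have h7 : ‖(z / ‖z‖ : ℂ)‖ ^ 2 ≤ 1 := by
    have := norm_nonneg (z / ‖z‖ : ℂ)
    nlinarith
  have h8 : 0 ≤ (1 - ‖z‖ ^ 2) ^ 2 * ‖SN β z‖ := by positivity
  have h9 : ‖(z / ‖z‖ : ℂ)‖ ^ 2 * (1 - ‖z‖ ^ 2) ^ 2 * ‖SN β z‖ ≤
      (1 - ‖z‖ ^ 2) ^ 2 * ‖SN β z‖ := by
    rw [mul_assoc]
    exact mul_le_of_le_one_left h8 h7
  linarith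

/-- the bound of the second invariant in the strip -/
theorem norm_sig_le {a : ℝ} (h : Ext β) (ha : 0 < a) (ha1 : a < 1) {ξ η : ℝ} (h0 : 0 < η)
    (h1 : η < π) (hξ : ξ < 0) (hξ1 : Real.log (tau a) < ξ) {q q1 : ℂ}
    (hq : deriv (Xf β a) (pt ξ η) = Xf β a (pt ξ η) * q)
    (hq1 : deriv (deriv (Xf β a)) (pt ξ η) = Xf β a (pt ξ η) * (q ^ 2 + q1)) :
    ‖sig (Xf β a (pt ξ η)) q q1 (Real.sin η) (Real.cos η)‖ ≤ 3 / 2 := by
  have hk := kraus_strip h ha ha1 h0 h1 hξ hξ1 hq hq1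
  have h2 : ‖((Real.cos η : ℂ) - (Real.sin η : ℂ) * I) ^ 2‖ = 1 := by
    have h4 : ‖(Real.cos η : ℂ) - (Real.sin η : ℂ) * I‖ ^ 2 = 1 := by
      rw [← Complex.normSq_eq_norm_sq, Complex.normSq_apply]
      simp only [sub_re, sub_im, mul_re, mul_im, ofReal_re, ofReal_im, I_re, I_im]
      have := Real.sin_sq_add_cos_sq η
      nlinarith
    rw [norm_pow, h4]
  have h3 : ‖(Real.sin η : ℂ) ^ 2‖ = Real.sin η ^ 2 := by
    rw [norm_pow, Complex.norm_real, Real.norm_eq_abs, sq_abs]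
  unfold sig
  rw [norm_mul, norm_mul, h2, h3, mul_one]
  exact hk

end Pool.Agent.Helper20.Kraus
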