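import Pool.Agent.Helper20.Kraus.All
import Pool.Agent.Helper69.EK7.Jet
import Pool.Agent.Helper69.EK3.Mir
import Pool.Agent.Helper67.EK.E1c

/-!
# The inequality of Kraus in the strip coordinate, form of project EK7
-/

set_option autoImplicit false

open Complex Metric Set Filter Topology
open scoped Real ComplexConjugate

namespace Pool.Agent.Helper20.Kraus2

open Pool.Agent.Helper39.Area
open Pool.Agent.Helper52.EK
open Pool.Agent.Helper69.EK3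
open Pool.Agent.Helper69.EK7

variable {β : ℂ → ℂ}

theorem norm_srad_le (h : Ext β) {z : ℂ} (hz : ‖z‖ < 1) : ‖srad β z‖ ≤ 6 := by
  have hk := Pool.Agent.Helper20.Kraus.kraus_all h hz
  have hS : Pool.Agent.Helper20.Kraus.SN β z = Sc β z := rfl
  rw [hS] at hk
  have h3 : ‖((1:ℂ) - (‖z‖ : ℂ) ^ 2) ^ 2‖ = (1 - ‖z‖ ^ 2) ^ 2 := by
    have h4 : ((1:ℂ) - (‖z‖ : ℂ) ^ 2) ^ 2 = (((1 - ‖z‖ ^ 2) ^ 2 : ℝ) : ℂ) := by push_cast; ring
    rw [h4, Complex.norm_real, Real.norm_of_nonneg (sq_nonneg _)]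
  have h5 : ‖(z / ‖z‖ : ℂ)‖ ≤ 1 := by
    rw [norm_div, Complex.norm_real, norm_norm]
    exact div_self_le_one _
  unfold srad
  rw [norm_mul, norm_mul, norm_pow, h3]
  have h7 : ‖(z / ‖z‖ : ℂ)‖ ^ 2 ≤ 1 := by
    have := norm_nonneg (z / ‖z‖ : ℂ)
    nlinarith
  have h8 : 0 ≤ (1 - ‖z‖ ^ 2) ^ 2 * ‖Sc β z‖ := by positivity
  have h9 : ‖(z / ‖z‖ : ℂ)‖ ^ 2 * (1 - ‖z‖ ^ 2) ^ 2 * ‖Sc β z‖ ≤
      (1 - ‖z‖ ^ 2) ^ 2 * ‖Sc β z‖ := by
    rw [mul_assoc]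
    exact mul_le_of_le_one_left h8 h7
  linarith

theorem norm_ph {Z : ℂ} (h1 : I + Z ≠ 0) (h2 : I - Z ≠ 0) :
    ‖Pool.Agent.Helper97.EK.ph Z‖ = 1 := by
  have e : ‖I - conj Z‖ = ‖I + Z‖ := by
    have e2 : I - conj Z = -conj (I + Z) := by
      rw [map_add, conj_I]
      ring
    rw [e2, norm_neg, RCLike.norm_conj]
  unfold Pool.Agent.Helper97.EK.ph
  rw [norm_mul, Complex.norm_real, norm_div, norm_div, norm_norm, norm_norm, e]
  have k1 := norm_pos_iff.mpr h1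
  have k2 := norm_pos_iff.mpr h2
  field_simp

theorem tX_zero_s (X Y Z : ℂ) (c : ℝ) : tX X Y Z 0 c = 0 := by
  unfold tX
  simp

/-- **Kraus in the closed strip** -/
theorem kraus_strip {R : ℝ} (h : ExtR β R) {a : ℝ} (ha : 0 < a) (ha1 : a < 1) {ξ η : ℝ}
    (h1 : Real.log (tau a) < ξ) (h2 : ξ < 0) (h3 : 0 ≤ η) (h4 : η ≤ π) :
    ‖tX (Xf β a (pt ξ η)) (deriv (Xf β a) (pt ξ η)) (deriv (deriv (Xf β a)) (pt ξ η))
      (Real.sin η) (Real.cos η)‖ ≤ 6 := by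
  rcases eq_or_lt_of_le h3 with h0 | h0
  · rw [← h0, Real.sin_zero, tX_zero_s]
    simp
  rcases eq_or_lt_of_le h4 with h5 | h5
  · rw [h5, Real.sin_pi, tX_zero_s]
    simp
  have e := E3a3 h.toExt ha ha1 h0 h5 h2 h1
  have hz := Pool.Agent.Helper97.EK.zf_mem (ξ := ξ) h0 h5
  have hk := norm_srad_le h.toExt (mem_ball_zero_iff.mp hz)
  rw [e, norm_mul, norm_pow, norm_ph (Pool.Agent.Helper97.EK.addI_ne h0 h5)
    (Pool.Agent.Helper97.EK.subI_ne h2), one_pow,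
    one_mul] at hk
  exact hk

theorem tX_conj (X Y Z : ℂ) (s c : ℝ) :
    tX (conj X) (conj Y) (conj Z) s c = conj (tX X Y Z s (-c)) := by
  unfold tX e0
  simp only [map_mul, map_add, map_sub, map_neg, map_pow, map_div₀, conj_ofReal, conj_I,
    map_ofNat, map_one, ofReal_neg]
  ring

theorem mir_deriv2_pt {X : ℂ → ℂ} {ξ η : ℝ} (hX : AnalyticAt ℂ X (pt ξ (π - η))) :
    deriv (deriv (mir X)) (pt ξ η) = conj (deriv (deriv X) (pt ξ (π - η))) := by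
  have hX' : AnalyticAt ℂ X (conj (pt ξ η) + π * I) := by
    rw [conj_pt]
    exact hX
  have hc : Filter.Tendsto (fun z : ℂ => conj z + π * I) (𝓝 (pt ξ η))
      (𝓝 (conj (pt ξ η) + π * I)) :=
    (Complex.continuous_conj.add continuous_const).continuousAt
  have hev := Complex.analyticAt_iff_eventually_differentiableAt.1 hX'
  have h1 : deriv (mir X) =ᶠ[𝓝 (pt ξ η)] mir (deriv X) := by
    filter_upwards [hc.eventually hev] with v hv
    exact (mir_hasDerivAt hv.hasDerivAt).deriv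
  rw [h1.deriv_eq]
  exact mir_deriv_pt hX.deriv.differentiableAt

/-- **Kraus** for the mirror image -/
theorem kraus_mir {R : ℝ} (h : ExtR β R) {a : ℝ} (ha : 0 < a) (ha1 : a < 1) {ξ η : ℝ}
    (h1 : Real.log (tau a) < ξ) (h2 : ξ < 0) (h3 : 0 ≤ η) (h4 : η ≤ π) :
    ‖tX (mir (Xf β a) (pt ξ η)) (deriv (mir (Xf β a)) (pt ξ η))
      (deriv (deriv (mir (Xf β a))) (pt ξ η)) (Real.sin η) (Real.cos η)‖ ≤ 6 := by
  have hN : NiceX (Xf β a) ξ ξ := Pool.Agent.Helper67.EK.E1c h ha ha1 h1 h2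
  have hmem : pt ξ (π - η) ∈ Rect ξ ξ := by
    refine ⟨⟨?_, ?_⟩, ⟨?_, ?_⟩⟩ <;> simp [pt] <;> linarith
  have hA : AnalyticAt ℂ (Xf β a) (pt ξ (π - η)) := hN.an _ hmem
  rw [mir_pt, mir_deriv_pt hA.differentiableAt, mir_deriv2_pt hA, tX_conj, RCLike.norm_conj]
  have hk := kraus_strip h ha ha1 h1 h2 (η := π - η) (by linarith) (by linarith)
  rw [Real.sin_pi_sub, Real.cos_pi_sub] at hk
  exact hk

end Pool.Agent.Helper20.Kraus2
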